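import Mathlib

namespace Pool.Agent.Results.MP_ce2a64_co.Counter

open SimpleGraph

/-- `G` has a radio labeling whose image is `{0, …, |V| - 1}`. -/
def RadioGraceful {V : Type} [Fintype V] (G : SimpleGraph V) : Prop :=
  ∃ f : V → ℕ, Set.range f = {k | k < Fintype.card V} ∧
    ∀ u v, u ≠ v → (G.diam : ℤ) + 1 - (G.dist u v : ℤ) ≤ |(f u : ℤ) - (f v : ℤ)|

def adjB (a b : Fin 10) : Bool := Nat.testBit 156134128333778448582638027044 (10 * a.val + b.val)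

theorem adjB_symm : ∀ a b, adjB a b = true → adjB b a = true := by decide +kernel

theorem adjB_irr : ∀ a, ¬ adjB a a = true := by decide +kernel

def G0 : SimpleGraph (Fin 10) where
  Adj a b := adjB a b = true
  symm := ⟨adjB_symm⟩
  loopless := ⟨adjB_irr⟩

def d0 (a b : Fin 10) : ℕ := if a = b then 0 else if adjB a b = true then 1 else 2

def d1 (a b : Fin 3) : ℕ := if a = b then 0 else 1

theorem common : ∀ a b : Fin 10, a ≠ b → ¬ adjB a b = true →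
    ∃ c, adjB a c = true ∧ adjB b c = true := by decide +kernel

theorem ed0 (a b : Fin 10) : G0.edist a b = d0 a b := by
  unfold d0
  split_ifs with h1 h2
  · simp [h1]
  · exact edist_eq_one_iff_adj.2 h2
  · obtain ⟨c, hc⟩ := common a b h1 h2
    exact edist_eq_two_iff.2 ⟨h1, h2, c, hc⟩

theorem ed1 (x y : Fin 10 × Fin 3) :
    (G0 □ (⊤ : SimpleGraph (Fin 3))).edist x y = ((d0 x.1 y.1 + d1 x.2 y.2 : ℕ) : ℕ∞) := by
  rw [edist_boxProd, ed0, edist_top]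
  unfold d1
  split_ifs <;> simp

def f0 (x : Fin 10 × Fin 3) : ℕ := (![![16, 26, 6], ![4, 1, 27], ![0, 3, 29], ![28, 5, 2], ![7, 13, 10], ![11, 8, 14], ![9, 15, 12], ![23, 20, 17], ![21, 18, 24], ![25, 22, 19]] : Fin 10 → Fin 3 → ℕ) x.1 x.2

theorem f0_ok : ∀ x y : Fin 10 × Fin 3, x ≠ y →
    (3 : ℤ) + 1 - ((d0 x.1 y.1 + d1 x.2 y.2 : ℕ) : ℤ) ≤ |(f0 x : ℤ) - (f0 y : ℤ)| := by
  decide +kernel

theorem f0_lt : ∀ x, f0 x < 30 := by decide +kernel

theorem f0_sur : ∀ k < 30, ∃ x, f0 x = k := by decide +kernel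

theorem d_le : ∀ x y : Fin 10 × Fin 3, d0 x.1 y.1 + d1 x.2 y.2 ≤ 3 := by decide +kernel

set_option synthInstance.maxSize 4000 in
theorem noham : ∀ c0 : Fin 10, ∀ c1 : Fin 10, (!adjB c0 c1 && c0 != c1) = true → ∀ c2 : Fin 10, (!adjB c1 c2 && c0 != c2 && c1 != c2) = true → ∀ c3 : Fin 10, (!adjB c2 c3 && c0 != c3 && c1 != c3 && c2 != c3) = true → ∀ c4 : Fin 10, (!adjB c3 c4 && c0 != c4 && c1 != c4 && c2 != c4 && c3 != c4) = true → ∀ c5 : Fin 10, (!adjB c4 c5 && c0 != c5 && c1 != c5 && c2 != c5 && c3 != c5 && c4 != c5) = true → ∀ c6 : Fin 10, (!adjB c5 c6 && c0 != c6 && c1 != c6 && c2 != c6 && c3 != c6 && c4 != c6 && c5 != c6) = true → ∀ c7 : Fin 10, (!adjB c6 c7 && c0 != c7 && c1 != c7 && c2 != c7 && c3 != c7 && c4 != c7 && c5 != c7 && c6 != c7) = true → ∀ c8 : Fin 10, (!adjB c7 c8 && c0 != c8 && c1 != c8 && c2 != c8 && c3 != c8 && c4 != c8 && c5 != c8 && c6 != c8 && c7 != c8) = true → ∀ c9 :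 Fin 10, (!adjB c8 c9 && c0 != c9 && c1 != c9 && c2 != c9 && c3 != c9 && c4 != c9 && c5 != c9 && c6 != c9 && c7 != c9 && c8 != c9) = true → False := by
  decide +kernel

theorem result : ∃ (m n : ℕ) (G : SimpleGraph (Fin m)) (H : SimpleGraph (Fin n)),
    G.Connected ∧ H.Connected ∧ RadioGraceful (G □ H) ∧ ¬ RadioGraceful G := by
  have hc : G0.Connected := by
    refine ⟨fun a b => reachable_of_edist_ne_top ?_⟩
    rw [ed0]
    simp
  refine ⟨10, 3, G0, ⊤, hc, connected_top, ⟨f0, ?_, fun x y hxy => ?_⟩, ?_⟩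
  · ext k
    simp only [Set.mem_range, Fintype.card_prod, Fintype.card_fin, Set.mem_ofPred_eq]
    exact ⟨fun ⟨x, hx⟩ => hx ▸ f0_lt x, f0_sur k⟩
  · have h1 : (G0 □ (⊤ : SimpleGraph (Fin 3))).dist x y = d0 x.1 y.1 + d1 x.2 y.2 := by
      unfold SimpleGraph.dist
      rw [ed1]
      rfl
    have h2 : (G0 □ (⊤ : SimpleGraph (Fin 3))).diam ≤ 3 := by
      obtain ⟨u, v, h⟩ := (G0 □ (⊤ : SimpleGraph (Fin 3))).exists_dist_eq_diam
      rw [← h]
      unfold SimpleGraph.dist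
      rw [ed1]
      exact d_le u v
    have h3 := f0_ok x y hxy
    rw [h1]
    omega
  · rintro ⟨f, hf1, hf2⟩
    have hd : ∀ a b, G0.dist a b = d0 a b := fun a b => by
      unfold SimpleGraph.dist
      rw [ed0]
      rfl
    have h2 : 2 ≤ G0.diam := by
      have := dist_le_diam (G := G0) (connected_iff_ediam_ne_top.1 hc) (u := 0) (v := 1)
      rw [hd] at this
      exact this
    have : ∀ k : Fin 10, ∃ v, f v = k.val := fun k => by
      have : k.val ∈ Set.range f := by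
        rw [hf1]
        simp
      exact this
    choose g hg using this
    have hne : ∀ i j : Fin 10, i ≠ j → g i ≠ g j := fun i j h e => h (Fin.ext (by rw [← hg, e, hg]))
    have hi : ∀ i j : Fin 10, i ≠ j → (g i != g j) = true := fun i j h => by simp [hne i j h]
    have hn : ∀ i j : Fin 10, j.val = i.val + 1 → (!adjB (g i) (g j)) = true := by
      intro i j h
      have hij : g i ≠ g j := hne i j (by intro e; rw [e] at h; omega)
      have := hf2 _ _ hij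
      rw [hd, hg, hg, h] at this
      by_contra hc
      have ha : adjB (g i) (g j) = true := by simpa using hc
      simp [d0, hij, ha] at this
      omega
    exact noham (g 0)
      (g 1) (by simp only [Bool.and_eq_true]; exact ⟨hn 0 1 rfl, hi 0 1 (by decide)⟩)
      (g 2) (by simp only [Bool.and_eq_true]; exact ⟨⟨hn 1 2 rfl, hi 0 2 (by decide)⟩, hi 1 2 (by decide)⟩)
      (g 3) (by simp only [Bool.and_eq_true]; exact ⟨⟨⟨hn 2 3 rfl, hi 0 3 (by decide)⟩, hi 1 3 (by decide)⟩, hi 2 3 (by decide)⟩)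
      (g 4) (by simp only [Bool.and_eq_true]; exact ⟨⟨⟨⟨hn 3 4 rfl, hi 0 4 (by decide)⟩, hi 1 4 (by decide)⟩, hi 2 4 (by decide)⟩, hi 3 4 (by decide)⟩)
      (g 5) (by simp only [Bool.and_eq_true]; exact ⟨⟨⟨⟨⟨hn 4 5 rfl, hi 0 5 (by decide)⟩, hi 1 5 (by decide)⟩, hi 2 5 (by decide)⟩, hi 3 5 (by decide)⟩, hi 4 5 (by decide)⟩)
      (g 6) (by simp only [Bool.and_eq_true]; exact ⟨⟨⟨⟨⟨⟨hn 5 6 rfl, hi 0 6 (by decide)⟩, hi 1 6 (by decide)⟩, hi 2 6 (by decide)⟩, hi 3 6 (by decide)⟩, hi 4 6 (by decide)⟩, hi 5 6 (by decide)⟩)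
      (g 7) (by simp only [Bool.and_eq_true]; exact ⟨⟨⟨⟨⟨⟨⟨hn 6 7 rfl, hi 0 7 (by decide)⟩, hi 1 7 (by decide)⟩, hi 2 7 (by decide)⟩, hi 3 7 (by decide)⟩, hi 4 7 (by decide)⟩, hi 5 7 (by decide)⟩, hi 6 7 (by decide)⟩)
      (g 8) (by simp only [Bool.and_eq_true]; exact ⟨⟨⟨⟨⟨⟨⟨⟨hn 7 8 rfl, hi 0 8 (by decide)⟩, hi 1 8 (by decide)⟩, hi 2 8 (by decide)⟩, hi 3 8 (by decide)⟩, hi 4 8 (by decide)⟩, hi 5 8 (by decide)⟩, hi 6 8 (by decide)⟩, hi 7 8 (by decide)⟩)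
      (g 9) (by simp only [Bool.and_eq_true]; exact ⟨⟨⟨⟨⟨⟨⟨⟨⟨hn 8 9 rfl, hi 0 9 (by decide)⟩, hi 1 9 (by decide)⟩, hi 2 9 (by decide)⟩, hi 3 9 (by decide)⟩, hi 4 9 (by decide)⟩, hi 5 9 (by decide)⟩, hi 6 9 (by decide)⟩, hi 7 9 (by decide)⟩, hi 8 9 (by decide)⟩)

end Pool.Agent.Results.MP_ce2a64_co.Counter
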